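import Pool.Agent.H66.AV.TF

/-!
# Protocols which are not better than guessing: row REQ (the expectation of the test function)
-/

set_option autoImplicit false

namespace Pool.Agent.H66.AVH

open Finset Pool.Agent.H70.OQ Pool.Agent.H70.EH Pool.Agent.H78.XQ
open Pool.Agent.H6.NB hiding sg
open Pool.Agent.H70.EI hiding T_AST
open Pool.Agent.H66.IP (Local ins sp dm Good IsZ scl mBp m0p)
open Pool.Agent.H66.IQ
open Pool.Agent.H66.AV

theorem req_sq {ι Ω : Type} [Fintype ι] [Fintype Ω] (D : Ω → ℝ) (σ : ι → ℝ) (v : ι → Ω → ℝ)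
    (δ : ℝ) (hσ : ∀ x, |σ x| ≤ 1) (h1 : ∀ x x', |∑ P, D P * (v x P * v x' P)| ≤ δ)
    (h2 : ∀ x, |∑ P, D P * v x P| ≤ δ) (h3 : |∑ P, D P| ≤ δ) :
    ∑ P, D P * (∑ x, σ x * (v x P - 1 / 2)) ^ 2 ≤ (Fintype.card ι : ℝ) ^ 2 * (9 / 4 * δ) := by
  have e1 : ∀ P, D P * (∑ x, σ x * (v x P - 1 / 2)) ^ 2 =
      ∑ x, ∑ x', σ x * σ x' * (D P * (v x P * v x' P) - 1 / 2 * (D P * v x P) -
        1 / 2 * (D P * v x' P) + 1 / 4 * D P) := by
    intro P
    rw [sq, Finset.sum_mul_sum, Finset.mul_sum]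
    refine Finset.sum_congr rfl fun x _ => ?_
    rw [Finset.mul_sum]
    refine Finset.sum_congr rfl fun x' _ => ?_
    ring
  rw [Finset.sum_congr rfl fun P _ => e1 P, Finset.sum_comm]
  have hδ : 0 ≤ δ := (abs_nonneg _).trans h3
  have hb : ∀ x ∈ (univ : Finset ι), ∑ P, ∑ x', σ x * σ x' * (D P * (v x P * v x' P) -
      1 / 2 * (D P * v x P) - 1 / 2 * (D P * v x' P) + 1 / 4 * D P) ≤
      ∑ _x' : ι, 9 / 4 * δ := by
    intro x _
    rw [Finset.sum_comm]
    refine Finset.sum_le_sum fun x' _ => ?_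
    rw [← Finset.mul_sum]
    have e2 : ∑ P, (D P * (v x P * v x' P) - 1 / 2 * (D P * v x P) -
        1 / 2 * (D P * v x' P) + 1 / 4 * D P) = ∑ P, D P * (v x P * v x' P) -
        1 / 2 * ∑ P, D P * v x P - 1 / 2 * ∑ P, D P * v x' P + 1 / 4 * ∑ P, D P := by
      simp only [Finset.sum_add_distrib, Finset.sum_sub_distrib, ← Finset.mul_sum]
    rw [e2]
    have a1 := abs_le.1 (h1 x x')
    have a2 := abs_le.1 (h2 x)
    have a3 := abs_le.1 (h2 x')
    have a4 := abs_le.1 h3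
    have a5 : |∑ P, D P * (v x P * v x' P) - 1 / 2 * ∑ P, D P * v x P -
        1 / 2 * ∑ P, D P * v x' P + 1 / 4 * ∑ P, D P| ≤ 9 / 4 * δ := by
      rw [abs_le]
      constructor <;> linarith [a1.1, a1.2, a2.1, a2.2, a3.1, a3.2, a4.1, a4.2]
    have a6 : |σ x * σ x'| ≤ 1 := by
      rw [abs_mul]
      calc |σ x| * |σ x'| ≤ 1 * 1 := mul_le_mul (hσ x) (hσ x') (abs_nonneg _) (by norm_num)
        _ = 1 := one_mul 1
    refine (le_abs_self _).trans ?_
    rw [abs_mul]
    calc _ ≤ 1 * (9 / 4 * δ) := mul_le_mul a6 a5 (abs_nonneg _) (by norm_num)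
      _ = 9 / 4 * δ := one_mul _
  refine (Finset.sum_le_sum hb).trans (le_of_eq ?_)
  simp only [Finset.sum_const, Finset.card_univ, nsmul_eq_mul]
  ring

theorem req_ln {ι Ω : Type} [Fintype ι] [Fintype Ω] (D : Ω → ℝ) (b : ι → Bool)
    (v w : ι → Ω → ℝ) (δ : ℝ) (hδ : 0 ≤ δ) (h1 : ∀ x, |∑ P, D P * (v x P * w x P)| ≤ δ)
    (h2 : ∀ x, |∑ P, D P * v x P| ≤ δ) :
    ∑ P, D P * (∑ x, if b x then v x P * (1 - w x P) else 0) ≤
      (Fintype.card ι : ℝ) * (2 * δ) := by
  have e1 : ∀ P, D P * (∑ x, if b x then v x P * (1 - w x P) else 0) =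
      ∑ x, if b x then D P * v x P - D P * (v x P * w x P) else 0 := by
    intro P
    rw [Finset.mul_sum]
    refine Finset.sum_congr rfl fun x _ => ?_
    split_ifs
    · ring
    · ring
  rw [Finset.sum_congr rfl fun P _ => e1 P, Finset.sum_comm]
  have hb : ∀ x ∈ (univ : Finset ι),
      ∑ P, (if b x then D P * v x P - D P * (v x P * w x P) else 0) ≤ 2 * δ := by
    intro x _
    by_cases hx : b x = true
    · simp only [hx, if_true]
      rw [Finset.sum_sub_distrib]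
      linarith [(abs_le.1 (h1 x)).1, (abs_le.1 (h2 x)).2]
    · simp only [hx]
      simp only [Bool.false_eq_true, if_false, Finset.sum_const_zero]
      linarith
  refine (Finset.sum_le_sum hb).trans (le_of_eq ?_)
  simp only [Finset.sum_const, Finset.card_univ, nsmul_eq_mul]

theorem tests_mono {k : ℕ} {m m' : ℕ} (h : m ≤ m') : ∀ G : Prot k, G.Tests m → G.Tests m' := by
  have hS : ∀ T : Exam k, T.Small m → T.Small m' := by
    intro T
    induction T with
    | leaf b => exact fun _ => trivial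
    | node M x l r hl hr => exact fun hT => ⟨hT.1.trans h, hl hT.2.1, hr hT.2.2⟩
  intro G
  induction G with
  | test T => exact fun hG => ⟨hG.1.trans h, hS T hG.2⟩
  | coin l r hl hr => exact fun hG => ⟨hl hG.1, hr hG.2⟩
  | say l r hl hr => exact fun hG => ⟨hl hG.1, hr hG.2⟩

theorem within_mono {k : ℕ} {m m' : ℕ} (h : m ≤ m') {G : Prot k} (hG : G.Within m) :
    G.Within m' := ⟨hG.1.trans h, tests_mono h G hG.2⟩

theorem pf_REQ (hPF2 : T_PF2) (hWMS : T_WMS) (hWLC : T_WLC) (hHYL : T_HYL) (hID1 : T_ID1)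
    (hID2 : T_ID2) (hAST : T_AST) (hOVL : T_OVL) (_hMSB : Pool.Agent.H66.IP.T_MSB) : T_REQ := by
  intro V k
  obtain ⟨n₂, h2⟩ := hPF2 V k
  obtain ⟨n₃, h3⟩ := hID1 k
  obtain ⟨n₄, h4⟩ := hID2 k
  refine ⟨n₂ + n₃ + n₄ + 20, fun n hn A C B hB hA hC hrel ε hε E O hO g => ?_⟩
  have hA4 : ∀ x, (A x).Within (2 ^ (n / 4)) := fun x =>
    within_mono (Nat.pow_le_pow_right (by norm_num) (by omega)) (hA x)
  set one : Prot k := .test (.leaf true) with hone
  have hone4 : one.Within (2 ^ (n / 4)) := ⟨Nat.zero_le _, Nat.zero_le _, trivial⟩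
  have hval1 : ∀ O, one.val O = 1 := fun O => by
    show (if (Exam.leaf true : Exam k).eval O = true then (1 : ℝ) else 0) = 1
    exact if_pos rfl
  -- a pair of protocols
  have hpair : ∀ (G₁ G₂ : Prot k), G₁.Within (2 ^ (n / 4)) → G₂.Within (2 ^ (n / 4)) →
      ∀ g₀ g₁ g₂ : List Bool → Bool,
      |∑ P, (wgl V E O g₀ P - wgt V E O n g₀ P) * (G₁.val (O P g₁) * G₂.val (O P g₂))| ≤
        (1 / 4) ^ n := by
    intro G₁ G₂ hG₁ hG₂ g₀ g₁ g₂
    have h := hHYL V E O hO n g₀ (fun P => G₁.val (O P g₁) * G₂.val (O P g₂)) (by omega)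
      (fun P p hp b hs => h2 n (by omega) G₁ G₂ hG₁ hG₂ E O hO P g₁ g₂ p hp b hs)
    rw [← Finset.sum_sub_distrib] at h
    simpa only [sub_mul] using h
  have hcard : (Fintype.card (Fin n → Bool) : ℝ) = 2 ^ n := by simp
  have h4n : (4 : ℝ) ^ n = (2 ^ n) ^ 2 := by
    rw [← pow_mul, mul_comm, pow_mul]; norm_num
  have h2n : (0 : ℝ) < 2 ^ n := by positivity
  set δ : ℝ := (1 / 4) ^ n with hδ
  have hδ0 : 0 ≤ δ := by positivity
  -- the weights of the blocks of small scale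
  have hwg : ∀ (z : Wn n k) P, wgt V E O n (ovl n k g (tbl z)) P = wgt V E O n g P := by
    intro z P
    refine hWLC V E O hO n _ _ (fun w hw => ?_) P
    refine (hOVL n k g).2.1 (tbl z) w fun x q hwx => ?_
    have := (hAST.1 n k x q).1
    rw [← hwx] at this
    omega
  have hz : ∀ z : Wn n k, ∑ P, wgl V E O (ovl n k g (tbl z)) P *
      tst ε A C (fun T => O P (ovl n k g T)) z ≤
      ∑ P, wgt V E O n g P * tst ε A C (fun T => O P (ovl n k g T)) z +
        (36 / ε ^ 2 + 4 / ε) * δ := by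
    intro z
    set D : (∀ p : {a // a ∈ E}, CP (dm V) p.1) → ℝ := fun P =>
      wgl V E O (ovl n k g (tbl z)) P - wgt V E O n (ovl n k g (tbl z)) P with hD
    have hs0 := req_sq D (fun x => sg (z x).1)
      (fun x P => (A x).val (O P (ovl n k g (tbl (zer z x))))) δ
      (fun x => by unfold sg; split_ifs <;> norm_num)
      (fun x x' => hpair (A x) (A x') (hA4 x) (hA4 x') _ _ _)
      (fun x => by
        have h := hpair (A x) one (hA4 x) hone4 (ovl n k g (tbl z))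
          (ovl n k g (tbl (zer z x))) g
        simpa only [hval1, mul_one] using h)
      (by
        have h := hpair one one hone4 hone4 (ovl n k g (tbl z)) g g
        simpa only [hval1, mul_one] using h)
    have hs1 := req_ln D (fun x => (z x).1)
      (fun x P => (A x).val (O P (ovl n k g (tbl (zer z x)))))
      (fun x P => (C x).val (O P (ovl n k g (tbl z)))) δ hδ0
      (fun x => hpair (A x) (C x) (hA4 x) (hC x) _ _ _)
      (fun x => by
        have h := hpair (A x) one (hA4 x) hone4 (ovl n k g (tbl z))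
          (ovl n k g (tbl (zer z x))) g
        simpa only [hval1, mul_one] using h)
    rw [hcard] at hs0 hs1
    have e1 : ∑ P, wgl V E O (ovl n k g (tbl z)) P *
        tst ε A C (fun T => O P (ovl n k g T)) z =
        ∑ P, wgt V E O n g P * tst ε A C (fun T => O P (ovl n k g T)) z +
        (16 / (ε ^ 2 * 4 ^ n) * ∑ P, D P * (∑ x, sg (z x).1 *
          ((A x).val (O P (ovl n k g (tbl (zer z x)))) - 1 / 2)) ^ 2 +
        2 / (ε * 2 ^ n) * ∑ P, D P * (∑ x, if (z x).1 then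
          (A x).val (O P (ovl n k g (tbl (zer z x)))) *
          (1 - (C x).val (O P (ovl n k g (tbl z)))) else 0)) := by
      rw [Finset.mul_sum, Finset.mul_sum, ← Finset.sum_add_distrib, ← Finset.sum_add_distrib]
      refine Finset.sum_congr rfl fun P _ => ?_
      have e2 : tst ε A C (fun T => O P (ovl n k g T)) z =
          16 / (ε ^ 2 * 4 ^ n) * (∑ x, sg (z x).1 *
          ((A x).val (O P (ovl n k g (tbl (zer z x)))) - 1 / 2)) ^ 2 +
          2 / (ε * 2 ^ n) * (∑ x, if (z x).1 then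
          (A x).val (O P (ovl n k g (tbl (zer z x)))) *
          (1 - (C x).val (O P (ovl n k g (tbl z)))) else 0) := rfl
      rw [e2]
      simp only [hD, hwg z P]
      ring
    rw [e1]
    have hα : 0 ≤ 16 / (ε ^ 2 * 4 ^ n) := by positivity
    have hβ : 0 ≤ 2 / (ε * 2 ^ n) := by positivity
    have f1 := mul_le_mul_of_nonneg_left hs0 hα
    have f2 := mul_le_mul_of_nonneg_left hs1 hβ
    have f3 : 16 / (ε ^ 2 * 4 ^ n) * (((2 : ℝ) ^ n) ^ 2 * (9 / 4 * δ)) = 36 / ε ^ 2 * δ := by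
      rw [h4n]; field_simp; ring
    have f4 : 2 / (ε * 2 ^ n) * ((2 : ℝ) ^ n * (2 * δ)) = 4 / ε * δ := by
      field_simp; ring
    rw [f3] at f1
    rw [f4] at f2
    have f5 : (36 / ε ^ 2 + 4 / ε) * δ = 36 / ε ^ 2 * δ + 4 / ε * δ := by ring
    rw [f5]
    linarith
  refine (Finset.sum_le_sum fun z _ => hz z).trans ?_
  rw [Finset.sum_add_distrib, Finset.sum_comm]
  have hK : ∀ P ∈ (univ : Finset (∀ p : {a // a ∈ E}, CP (dm V) p.1)),
      ∑ z : Wn n k, wgt V E O n g P * tst ε A C (fun T => O P (ovl n k g T)) z ≤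
      wgt V E O n g P * (Fintype.card (Wn n k) * (32 / ε ^ 2 * (1 / 2) ^ (n / 3) +
        2 / ε * (1 / B + 2 * (1 / 2) ^ (n / 3)))) := by
    intro P _
    rw [← Finset.mul_sum]
    refine mul_le_mul_of_nonneg_left ?_ ((hWMS V E O hO g).1 n P)
    have hL := ((hOVL n k g).2.2.2 V E O hO P).1
    have g1 := h3 n (by omega) A C B hB hA hrel _ hL
    have g2 := h4 n (by omega) A hA _ hL
    have e3 : ∑ z : Wn n k, tst ε A C (fun T => O P (ovl n k g T)) z =
        16 / (ε ^ 2 * 4 ^ n) * ∑ z : Wn n k, s0 A (fun T => O P (ovl n k g T)) z ^ 2 +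
        2 / (ε * 2 ^ n) * ∑ z : Wn n k, s1 A C (fun T => O P (ovl n k g T)) z := by
      rw [Finset.mul_sum, Finset.mul_sum, ← Finset.sum_add_distrib]
      rfl
    rw [e3]
    have hα : 0 ≤ 16 / (ε ^ 2 * 4 ^ n) := by positivity
    have hβ : 0 ≤ 2 / (ε * 2 ^ n) := by positivity
    have f1 := mul_le_mul_of_nonneg_left g2 hα
    have f2 := mul_le_mul_of_nonneg_left g1 hβ
    have f3 : 16 / (ε ^ 2 * 4 ^ n) * ((Fintype.card (Wn n k) : ℝ) * 4 ^ n *
        (2 * (1 / 2) ^ (n / 3))) = Fintype.card (Wn n k) * (32 / ε ^ 2 * (1 / 2) ^ (n / 3)) := by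
      field_simp; ring
    have f4 : 2 / (ε * 2 ^ n) * ((Fintype.card (Wn n k) : ℝ) * 2 ^ n *
        (1 / B + 2 * (1 / 2) ^ (n / 3))) =
        Fintype.card (Wn n k) * (2 / ε * (1 / B + 2 * (1 / 2) ^ (n / 3))) := by
      have : ε ≠ 0 := hε.ne'
      have : (2 : ℝ) ^ n ≠ 0 := h2n.ne'
      generalize (1 / (B : ℝ) + 2 * (1 / 2) ^ (n / 3)) = y
      field_simp
    rw [f3] at f1
    rw [f4] at f2
    calc _ ≤ _ := add_le_add f1 f2
      _ = _ := by ring
  have hK0 : 0 ≤ (Fintype.card (Wn n k) : ℝ) * (32 / ε ^ 2 * (1 / 2) ^ (n / 3) +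
        2 / ε * (1 / B + 2 * (1 / 2) ^ (n / 3))) := by positivity
  have hK1 := (Finset.sum_le_sum hK)
  rw [← Finset.sum_mul] at hK1
  have hK2 := mul_le_mul_of_nonneg_right ((hWMS V E O hO g).2.1 n) hK0
  rw [one_mul] at hK2
  rw [Finset.sum_const, Finset.card_univ, nsmul_eq_mul]
  calc _ ≤ (Fintype.card (Wn n k) : ℝ) * (32 / ε ^ 2 * (1 / 2) ^ (n / 3) +
        2 / ε * (1 / B + 2 * (1 / 2) ^ (n / 3))) +
        Fintype.card (Wn n k) * ((36 / ε ^ 2 + 4 / ε) * δ) :=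
      add_le_add (hK1.trans hK2) le_rfl
    _ = _ := by ring

end Pool.Agent.H66.AVH
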