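import Pool.Agent.H66.AV.TF

/-!
# Protocols which are not better than guessing: row CPT (compactness)
-/

set_option autoImplicit false

namespace Pool.Agent.H66.AVH

open Pool.Agent.H66.AV

theorem pf_CPT : T_CPT := by
  classical
  intro C hL hM
  choose O hO using hM
  let U : Ultrafilter ℕ := Filter.hyperfilter ℕ
  refine ⟨fun w => decide (∀ᶠ M in (U : Filter ℕ), O M w = true), fun i => ?_⟩
  obtain ⟨L, hLi⟩ := hL i
  have h1 : ∀ w : List Bool, ∀ᶠ M in (U : Filter ℕ),
      O M w = decide (∀ᶠ M in (U : Filter ℕ), O M w = true) := by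
    intro w
    by_cases h : ∀ᶠ M in (U : Filter ℕ), O M w = true
    · filter_upwards [h] with M hMw
      rw [hMw, decide_eq_true h]
    · have h' : ∀ᶠ M in (U : Filter ℕ), ¬ O M w = true := Ultrafilter.eventually_not.2 h
      filter_upwards [h'] with M hMw
      rw [decide_eq_false h]
      simpa using hMw
  have hfin : {w : List Bool | w.length ≤ L}.Finite := List.finite_length_le Bool L
  have h2 : ∀ᶠ M in (U : Filter ℕ), ∀ w ∈ {w : List Bool | w.length ≤ L},
      O M w = decide (∀ᶠ M in (U : Filter ℕ), O M w = true) :=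
    (Filter.eventually_all_finite hfin).2 fun w _ => h1 w
  have h3 : ∀ᶠ M in (U : Filter ℕ), i < M := by
    have h4 : ∀ᶠ M in Filter.cofinite, i < M := by
      rw [Nat.cofinite_eq_atTop]
      exact Filter.eventually_gt_atTop i
    exact Filter.hyperfilter_le_cofinite h4
  obtain ⟨M, hMw, hMi⟩ := (h2.and h3).exists
  exact hLi (O M) _ (fun w hw => hMw w hw) (hO M i hMi)

end Pool.Agent.H66.AVH
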