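import Pool.Agent.H12.AVH.ID1

/-!
# Protocols which are not better than guessing: row DTN (the influence of the other tables)
-/

set_option autoImplicit false

namespace Pool.Agent.H66.AVH

open Finset Pool.Agent.H70.OQ Pool.Agent.H70.EH Pool.Agent.H78.XQ
open Pool.Agent.H66.IQ Pool.Agent.H12.AVH
open Pool.Agent.H6.NB hiding sg
open Pool.Agent.H70.EI hiding T_AST
open Pool.Agent.H66.AV

theorem dtn_zer {n k : ℕ} (z : Wn n k) {x x' : Fin n → Bool} (h : x' ≠ x)
    (t : Bool × Hid (Fin n → Bool) (Ys n) k × (Fin n → Bool)) :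
    zer (Function.update z x' t) x = Function.update (zer z x) x' t := by
  unfold zer
  rw [Function.update_of_ne (Ne.symm h), Function.update_comm h]

theorem dtn_pos {k n : ℕ} (hPGA : ∀ G : Prot k, G.Within (2 ^ (n / 6)) →
    ∀ O : (Nn n k → Bool) → List Bool → Bool, Lit O →
    ∃ a : Hid (Fin n → Bool) (Ys n) k × (Fin n → Bool) → ℝ, (∀ z, 0 ≤ a z) ∧
      ∑ z, a z ≤ Fintype.card (Hid (Fin n → Bool) (Ys n) k × (Fin n → Bool)) *
        (1 / 2) ^ (n / 3) ∧
      ∀ z, G.val (O (tabT k z.1)) - G.val (O (tabU k z.1 z.2)) ≤ a z)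
    (A : (Fin n → Bool) → Prot k) (hA : ∀ x, (A x).Within (2 ^ (n / 6)))
    (Q : ((Fin n → Bool) → Nn n k → Bool) → List Bool → Bool) (hQ : LitT Q)
    (x x' : Fin n → Bool) :
    ∑ z : Wn n k, max (v0 A Q (Function.update z x' (false, (z x').2)) x -
      v0 A Q (Function.update z x' (true, (z x').2)) x) 0 ≤
      Fintype.card (Wn n k) * (1 / 2) ^ (n / 3) := by
  by_cases h : x' = x
  · subst h
    have e : ∀ z : Wn n k, max (v0 A Q (Function.update z x' (false, (z x').2)) x' -
        v0 A Q (Function.update z x' (true, (z x').2)) x') 0 = 0 := by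
      intro z
      have e1 : v0 A Q (Function.update z x' (false, (z x').2)) x' =
          v0 A Q (Function.update z x' (true, (z x').2)) x' := by
        unfold v0 zer
        simp only [Function.update_self, Function.update_idem]
      rw [e1, sub_self, max_self]
    rw [Finset.sum_congr rfl fun z _ => e z, Finset.sum_const_zero]
    positivity
  · rcases isEmpty_or_nonempty (Wn n k) with hemp | ⟨⟨z0⟩⟩
    · rw [Fintype.sum_empty]
      positivity
    set F : Wn n k → ℝ := fun z => max (v0 A Q (Function.update z x' (false, (z x').2)) x -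
      v0 A Q (Function.update z x' (true, (z x').2)) x) 0 with hF
    have hspl := id1_split x' F
    have hcp : (0 : ℝ) < Fintype.card (Bool × Hid (Fin n → Bool) (Ys n) k × (Fin n → Bool)) := by
      exact_mod_cast Fintype.card_pos_iff.2 ⟨z0 x'⟩
    have hc2 : (Fintype.card (Bool × Hid (Fin n → Bool) (Ys n) k × (Fin n → Bool)) : ℝ) =
        2 * Fintype.card (Hid (Fin n → Bool) (Ys n) k × (Fin n → Bool)) := by
      rw [Fintype.card_prod, Fintype.card_bool]
      push_cast
      ring
    have hb : ∀ z : Wn n k, ∑ c, F (Function.update z x' c) ≤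
        Fintype.card (Bool × Hid (Fin n → Bool) (Ys n) k × (Fin n → Bool)) *
          (1 / 2) ^ (n / 3) := by
      intro z
      obtain ⟨a, ha0, ha1, ha2⟩ := hPGA (A x) (hA x)
        (fun y => Q (Function.update (tbl (zer z x)) x' y)) (id1_lit Q hQ _ x')
      have hFc : ∀ c : Bool × Hid (Fin n → Bool) (Ys n) k × (Fin n → Bool),
          F (Function.update z x' c) ≤ a c.2 := by
        intro c
        have e1 : F (Function.update z x' c) =
            max ((A x).val (Q (Function.update (tbl (zer z x)) x' (tabT k c.2.1))) -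
            (A x).val (Q (Function.update (tbl (zer z x)) x' (tabU k c.2.1 c.2.2)))) 0 := by
          simp only [hF, Function.update_self, Function.update_idem]
          unfold v0
          rw [dtn_zer z h, dtn_zer z h, id1_tbl, id1_tbl]
          rfl
        rw [e1]
        exact max_le (ha2 c.2) (ha0 c.2)
      refine (Finset.sum_le_sum fun c _ => hFc c).trans ?_
      rw [Fintype.sum_prod_type]
      simp only [Fintype.sum_bool]
      rw [hc2]
      linarith
    have hs : (Fintype.card (Bool × Hid (Fin n → Bool) (Ys n) k × (Fin n → Bool)) : ℝ) *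
        ∑ z, F z ≤ Fintype.card (Wn n k) * (Fintype.card
        (Bool × Hid (Fin n → Bool) (Ys n) k × (Fin n → Bool)) * (1 / 2) ^ (n / 3)) := by
      rw [hspl]
      refine (Finset.sum_le_sum fun z _ => hb z).trans (le_of_eq ?_)
      rw [Finset.sum_const, Finset.card_univ, nsmul_eq_mul]
    have hs2 : (Fintype.card (Bool × Hid (Fin n → Bool) (Ys n) k × (Fin n → Bool)) : ℝ) *
        ∑ z, F z ≤ (Fintype.card (Bool × Hid (Fin n → Bool) (Ys n) k × (Fin n → Bool)) : ℝ) *
        (Fintype.card (Wn n k) * (1 / 2) ^ (n / 3)) := by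
      calc _ ≤ _ := hs
        _ = _ := by ring
    exact le_of_mul_le_mul_left hs2 hcp

theorem pf_DTN (hPGA : T_PGA) (hDPL : T_DPL) : T_DTN := by
  intro k
  obtain ⟨n₀, hn₀⟩ := hPGA k
  refine ⟨n₀, fun n hn A hA Q hQ x => ?_⟩
  have hpos := dtn_pos (hn₀ n hn) A hA Q hQ x
  -- the bits and the other data
  let e : Wn n k ≃ ((Fin n → Bool) → Bool) ×
      ((Fin n → Bool) → Hid (Fin n → Bool) (Ys n) k × (Fin n → Bool)) :=
    Equiv.arrowProdEquivProdArrow _ _ _
  have hsum : ∀ F : Wn n k → ℝ, ∑ z, F z = ∑ c : (Fin n → Bool) →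
      Hid (Fin n → Bool) (Ys n) k × (Fin n → Bool), ∑ b : (Fin n → Bool) → Bool,
        F fun y => (b y, c y) := by
    intro F
    rw [Finset.sum_comm, ← Fintype.sum_prod_type', ← Equiv.sum_comp e.symm]
    rfl
  have hcard : (Fintype.card (Wn n k) : ℝ) = Fintype.card ((Fin n → Bool) →
      Hid (Fin n → Bool) (Ys n) k × (Fin n → Bool)) * 2 ^ Fintype.card (Fin n → Bool) := by
    rw [Fintype.card_congr e, Fintype.card_prod, mul_comm]
    push_cast
    congr 1
    simp
  have hval : ∀ O, 0 ≤ (A x).val O ∧ (A x).val O ≤ 1 := id1_val (A x)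
  -- DPL for each c
  have hup : ∀ (b : (Fin n → Bool) → Bool) (c : (Fin n → Bool) →
      Hid (Fin n → Bool) (Ys n) k × (Fin n → Bool)) (i : Fin n → Bool) (t : Bool),
      Function.update (fun y => (b y, c y)) i (t, c i) =
        fun y => (Function.update b i t y, c y) := by
    intro b c i t
    funext y
    by_cases hy : y = i
    · subst hy
      simp
    · simp [Function.update_of_ne hy]
  have hD : ∀ c : (Fin n → Bool) → Hid (Fin n → Bool) (Ys n) k × (Fin n → Bool),
      ∑ i, ∑ b : (Fin n → Bool) → Bool,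
        |v0 A Q (Function.update (fun y => (b y, c y)) i (false, c i)) x -
          v0 A Q (Function.update (fun y => (b y, c y)) i (true, c i)) x| ≤
      2 * ∑ i, ∑ b : (Fin n → Bool) → Bool,
        max (v0 A Q (Function.update (fun y => (b y, c y)) i (false, c i)) x -
          v0 A Q (Function.update (fun y => (b y, c y)) i (true, c i)) x) 0 +
      2 * (2 ^ Fintype.card (Fin n → Bool) * √(Fintype.card (Fin n → Bool))) := by
    intro c
    have h := hDPL (Fin n → Bool) (fun b => v0 A Q (fun y => (b y, c y)) x)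
      (fun b => hval _)
    simpa only [hup] using h
  have hall : ∑ x', ∑ z : Wn n k, |v0 A Q (Function.update z x' (false, (z x').2)) x -
      v0 A Q (Function.update z x' (true, (z x').2)) x| ≤
      2 * ∑ x', ∑ z : Wn n k, max (v0 A Q (Function.update z x' (false, (z x').2)) x -
        v0 A Q (Function.update z x' (true, (z x').2)) x) 0 +
      Fintype.card (Wn n k) * (2 * √(Fintype.card (Fin n → Bool))) := by
    have e1 : ∑ x', ∑ z : Wn n k, |v0 A Q (Function.update z x' (false, (z x').2)) x -
        v0 A Q (Function.update z x' (true, (z x').2)) x| =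
        ∑ c : (Fin n → Bool) → Hid (Fin n → Bool) (Ys n) k × (Fin n → Bool),
        ∑ i, ∑ b : (Fin n → Bool) → Bool,
        |v0 A Q (Function.update (fun y => (b y, c y)) i (false, c i)) x -
          v0 A Q (Function.update (fun y => (b y, c y)) i (true, c i)) x| := by
      rw [Finset.sum_comm (s := (univ : Finset ((Fin n → Bool) →
        Hid (Fin n → Bool) (Ys n) k × (Fin n → Bool))))]
      exact Finset.sum_congr rfl fun x' _ => hsum _
    have e2 : ∑ x', ∑ z : Wn n k, max (v0 A Q (Function.update z x' (false, (z x').2)) x -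
        v0 A Q (Function.update z x' (true, (z x').2)) x) 0 =
        ∑ c : (Fin n → Bool) → Hid (Fin n → Bool) (Ys n) k × (Fin n → Bool),
        ∑ i, ∑ b : (Fin n → Bool) → Bool,
        max (v0 A Q (Function.update (fun y => (b y, c y)) i (false, c i)) x -
          v0 A Q (Function.update (fun y => (b y, c y)) i (true, c i)) x) 0 := by
      rw [Finset.sum_comm (s := (univ : Finset ((Fin n → Bool) →
        Hid (Fin n → Bool) (Ys n) k × (Fin n → Bool))))]
      exact Finset.sum_congr rfl fun x' _ => hsum _
    rw [e1, e2]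
    refine (Finset.sum_le_sum fun c _ => hD c).trans (le_of_eq ?_)
    rw [Finset.sum_add_distrib, ← Finset.mul_sum, Finset.sum_const, Finset.card_univ,
      nsmul_eq_mul, hcard]
    ring
  have hlast : ∑ x', ∑ z : Wn n k, max (v0 A Q (Function.update z x' (false, (z x').2)) x -
      v0 A Q (Function.update z x' (true, (z x').2)) x) 0 ≤
      2 ^ n * (Fintype.card (Wn n k) * (1 / 2) ^ (n / 3)) := by
    refine (Finset.sum_le_sum fun x' _ => hpos x').trans (le_of_eq ?_)
    rw [Finset.sum_const, Finset.card_univ, nsmul_eq_mul]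
    simp
  have hsub : ∑ x' ∈ univ.erase x, ∑ z : Wn n k,
      |v0 A Q (Function.update z x' (false, (z x').2)) x -
        v0 A Q (Function.update z x' (true, (z x').2)) x| ≤
      ∑ x', ∑ z : Wn n k, |v0 A Q (Function.update z x' (false, (z x').2)) x -
        v0 A Q (Function.update z x' (true, (z x').2)) x| :=
    Finset.sum_le_sum_of_subset_of_nonneg (Finset.subset_univ _)
      fun i _ _ => Finset.sum_nonneg fun z _ => abs_nonneg _
  have hcX : (Fintype.card (Fin n → Bool) : ℝ) = 2 ^ n := by simp
  rw [hcX] at hall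
  calc _ ≤ _ := hsub
    _ ≤ _ := hall
    _ ≤ 2 * (2 ^ n * (Fintype.card (Wn n k) * (1 / 2) ^ (n / 3))) +
        Fintype.card (Wn n k) * (2 * √(2 ^ n)) := by linarith
    _ = _ := by ring

end Pool.Agent.H66.AVH
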