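import Pool.Agent.H66.AV.TF

/-!
# Protocols which are not better than guessing: row NVB
-/

set_option autoImplicit false

namespace Pool.Agent.H66.AVH

open Pool.Agent.H66.AV

theorem pf_NVB : T_NVB := by
  intro v v' a B hB hv0 hv1 hv0' hv1' ha h
  have hBr : (1 : ℝ) ≤ (B : ℝ) := by exact_mod_cast hB
  have hBp : (0 : ℝ) < (B : ℝ) := by linarith
  have hle1 : (1 - v') ^ B ≤ 1 := pow_le_one₀ (by linarith) (by linarith)
  have hp0 : 0 ≤ (1 - v') ^ B := pow_nonneg (by linarith) B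
  have hinv : 0 ≤ 1 / (B : ℝ) := by positivity
  by_cases hc : v / 2 < a
  · calc v * (1 - v') ^ B ≤ v * 1 := mul_le_mul_of_nonneg_left hle1 hv0
      _ ≤ 1 / B + 2 * a := by linarith
  · have hc' : a ≤ v / 2 := not_lt.1 hc
    have h1 : v / 2 ≤ v' := by linarith
    have h2 : (1 - v') ^ B ≤ (1 - v / 2) ^ B :=
      pow_le_pow_left₀ (by linarith) (by linarith) B
    have h3 : (1 - v / 2) ^ B ≤ Real.exp (-(v / 2)) ^ B :=
      pow_le_pow_left₀ (by linarith) (by
        have := Real.add_one_le_exp (-(v / 2)); linarith) B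
    have h4 : Real.exp (-(v / 2)) ^ B = Real.exp (-(B * (v / 2))) := by
      rw [← Real.exp_nat_mul]; congr 1; ring
    have hx : 0 ≤ (B : ℝ) * (v / 2) := by positivity
    have h5 : 2 * ((B : ℝ) * (v / 2)) ≤ Real.exp (B * (v / 2)) := by
      have := Real.quadratic_le_exp_of_nonneg hx
      nlinarith [sq_nonneg ((B : ℝ) * (v / 2) - 1)]
    have h6 : v * Real.exp (-(B * (v / 2))) ≤ 1 / B := by
      rw [Real.exp_neg, ← div_eq_mul_inv, div_le_div_iff₀ (Real.exp_pos _) hBp]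
      nlinarith
    calc v * (1 - v') ^ B ≤ v * (1 - v / 2) ^ B := mul_le_mul_of_nonneg_left h2 hv0
      _ ≤ v * Real.exp (-(v / 2)) ^ B := mul_le_mul_of_nonneg_left h3 hv0
      _ = v * Real.exp (-(B * (v / 2))) := by rw [h4]
      _ ≤ 1 / B := h6
      _ ≤ 1 / B + 2 * a := by linarith

end Pool.Agent.H66.AVH
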